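import Pool.Agent.Helper93.HZ.Spec1

/-!
# HZ: CON, contraction of an edge with a free endpoint
-/

set_option autoImplicit false

open MulAction Pointwise

namespace Pool.Agent.Helper93.HZ

theorem con_FC_of_inj {G : Type} [Group G] {S H : Subgroup G} (f : S →* H) (hf : Function.Injective f) (h : FC H) :
    FC S := by
  rcases h with h | h
  · exact Or.inl (Finite.of_injective f hf)
  · exact Or.inr (isCyclic_of_injective f hf)

theorem con_conj {G : Type} [Group G] {S H : Subgroup G} (g : G) (hS : ∀ x, x ∈ S → g * x * g⁻¹ ∈ H) (h : FC H) :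
    FC S := by
  refine con_FC_of_inj (H := H)
    { toFun := fun x => ⟨g * x * g⁻¹, hS x x.2⟩
      map_one' := by ext; simp
      map_mul' := fun x y => by ext; simp } ?_ h
  intro x y hxy
  have : g * (x : G) * g⁻¹ = g * (y : G) * g⁻¹ := congrArg Subtype.val hxy
  exact Subtype.ext (by simpa using this)

theorem st_CON (hq : ST_QUO) (hinf : ST_INF) : ST_CON := by
  intro G _ D K q y H hadj hfree hcase
  -- the class
  let S : Set K.V := {s | s = y ∨ ∃ h ∈ H, s = h • q}
  have hqS : q ∈ S := Or.inr ⟨1, H.one_mem, by simp⟩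
  have hyS : y ∈ S := Or.inl rfl
  have hfree' : ∀ g : G, g • q = q → g = 1 := fun g hg => by
    have : g ∈ stabilizer G q := hg
    rw [hfree] at this
    exact this
  have hFC : FC H := by
    rcases hcase with ⟨-, h⟩ | ⟨g0, -, h⟩
    · rw [h]; exact K.stab y
    · rw [h]; exact Or.inr inferInstance
  -- translates of the class
  have hkey : ∀ s ∈ S, ∀ k : G, k • s ∈ S → k ∈ H := by
    rintro s (rfl | ⟨h, hh, rfl⟩) k hk
    · rcases hcase with ⟨h1, h2⟩ | ⟨g0, h1, h2⟩
      · rcases hk with hk | ⟨h', hh', hk⟩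
        · rw [h2]; exact hk
        · exfalso
          apply h1 (k⁻¹ * h')
          rw [mul_smul, ← hk, inv_smul_smul]
      · have hg0 : g0 ∈ H := by rw [h2]; exact Subgroup.mem_zpowers g0
        obtain ⟨h', hh', hk'⟩ : ∃ h' ∈ H, k • s = h' • q := by
          rcases hk with hk | hk
          · exact ⟨g0, hg0, by rw [hk, h1]⟩
          · exact hk
        rw [h1, smul_smul] at hk'
        have h3 : h'⁻¹ * (k * g0) = 1 := by
          apply hfree'
          rw [mul_smul, hk', inv_smul_smul]
        have h4 : k = h' * g0⁻¹ := by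
          rw [inv_mul_eq_one] at h3
          rw [h3]; group
        rw [h4]
        exact H.mul_mem hh' (H.inv_mem hg0)
    · have hk2 : (∃ h' ∈ H, k • h • q = h' • q) ∨ (∀ g : G, g • q ≠ y) ∧ k • h • q = y := by
        rcases hcase with ⟨h1, h2⟩ | ⟨g0, h1, h2⟩
        · rcases hk with hk | hk
          · exact Or.inr ⟨h1, hk⟩
          · exact Or.inl hk
        · rcases hk with hk | hk
          · exact Or.inl ⟨g0, by rw [h2]; exact Subgroup.mem_zpowers g0, by rw [hk, h1]⟩
          · exact Or.inl hk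
      rcases hk2 with ⟨h', hh', hk'⟩ | ⟨h1, hk'⟩
      · have h3 : h'⁻¹ * (k * h) = 1 := by
          apply hfree'
          rw [mul_smul, mul_smul, hk', inv_smul_smul]
        have h4 : k = h' * h⁻¹ := by
          rw [inv_mul_eq_one] at h3
          rw [h3]; group
        rw [h4]
        exact H.mul_mem hh' (H.inv_mem hh)
      · exfalso
        apply h1 (k * h)
        rw [mul_smul, hk']
  have hHS : ∀ k ∈ H, ∀ s ∈ S, k • s ∈ S := by
    rintro k hk s (rfl | ⟨h, hh, rfl⟩)
    · rcases hcase with ⟨h1, h2⟩ | ⟨g0, h1, h2⟩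
      · left
        rw [h2] at hk
        exact hk
      · right
        refine ⟨k * g0, H.mul_mem hk (by rw [h2]; exact Subgroup.mem_zpowers g0), ?_⟩
        rw [h1, mul_smul]
    · right
      exact ⟨k * h, H.mul_mem hk hh, by rw [mul_smul]⟩
  -- the relation
  let E : K.V → K.V → Prop := fun x x' => x = x' ∨ ∃ g : G, g • x ∈ S ∧ g • x' ∈ S
  have hE1 : Equivalence E := by
    refine ⟨fun x => Or.inl rfl, ?_, ?_⟩
    · rintro x x' (h | ⟨g, h1, h2⟩)
      · exact Or.inl h.symm
      · exact Or.inr ⟨g, h2, h1⟩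
    · rintro x x' x'' (rfl | ⟨g, h1, h2⟩) (rfl | ⟨g', h3, h4⟩)
      · exact Or.inl rfl
      · exact Or.inr ⟨g', h3, h4⟩
      · exact Or.inr ⟨g, h1, h2⟩
      · right
        refine ⟨g', ?_, h4⟩
        have h5 : g' * g⁻¹ ∈ H := by
          apply hkey _ h2
          rw [mul_smul, inv_smul_smul]
          exact h3
        have h6 := hHS _ h5 _ h1
        rwa [mul_smul, inv_smul_smul] at h6
  have hE2 : ∀ (g : G) x x', E x x' → E (g • x) (g • x') := by
    rintro g x x' (rfl | ⟨k, h1, h2⟩)
    · exact Or.inl rfl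
    · right
      refine ⟨k * g⁻¹, ?_, ?_⟩
      · rw [mul_smul, inv_smul_smul]; exact h1
      · rw [mul_smul, inv_smul_smul]; exact h2
  have hES : ∀ s ∈ S, ∀ s' ∈ S, E s s' := fun s hs s' hs' => Or.inr ⟨1, by rwa [one_smul], by rwa [one_smul]⟩
  -- paths in the class
  have hsh : ∀ (g : G) {a b : K.V}, Relation.ReflTransGen (fun p r => K.adj p r ∧ E p r) a b →
      Relation.ReflTransGen (fun p r => K.adj p r ∧ E p r) (g • a) (g • b) := by
    intro g a b hab
    induction hab with
    | refl => exact Relation.ReflTransGen.refl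
    | tail _ h2 ih => exact ih.tail ⟨K.smul_adj g _ _ h2.1, hE2 g _ _ h2.2⟩
  have hsymm : ∀ {a b : K.V}, Relation.ReflTransGen (fun p r => K.adj p r ∧ E p r) a b →
      Relation.ReflTransGen (fun p r => K.adj p r ∧ E p r) b a := by
    intro a b hab
    induction hab with
    | refl => exact Relation.ReflTransGen.refl
    | tail _ h2 ih => exact Relation.ReflTransGen.head ⟨K.symm _ _ h2.1, hE1.symm h2.2⟩ ih
  have hpathS : ∀ s ∈ S, Relation.ReflTransGen (fun p r => K.adj p r ∧ E p r) q s := by
    have hq1 : Relation.ReflTransGen (fun p r => K.adj p r ∧ E p r) q y :=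
      Relation.ReflTransGen.single ⟨hadj, hES q hqS y hyS⟩
    rintro s (rfl | ⟨h, hh, rfl⟩)
    · exact hq1
    · rcases hcase with ⟨h1, h2⟩ | ⟨g0, h1, h2⟩
      · have h3 : h • y = y := by rw [h2] at hh; exact hh
        have h4 := hsh h hq1
        rw [h3] at h4
        exact hq1.trans (hsymm h4)
      · rw [h2] at hh
        obtain ⟨n, rfl⟩ := Subgroup.mem_zpowers_iff.1 hh
        rw [h1] at hq1
        have hstep : ∀ n : ℤ, Relation.ReflTransGen (fun p r => K.adj p r ∧ E p r) (g0 ^ n • q) (g0 ^ (n + 1) • q) := by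
          intro n
          have := hsh (g0 ^ n) hq1
          rw [smul_smul, ← zpow_add_one] at this
          exact this
        induction n using Int.induction_on with
        | zero =>
          rw [zpow_zero, one_smul]
        | succ i ih =>
          exact (ih (by rw [h2] at *; exact Subgroup.zpow_mem_zpowers g0 _)).trans (hstep i)
        | pred i ih =>
          have h5 := hstep (-(i : ℤ) - 1)
          rw [sub_add_cancel] at h5
          exact (ih (by rw [h2] at *; exact Subgroup.zpow_mem_zpowers g0 _)).trans (hsymm h5)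
  have hE3 : ∀ x x', E x x' → Relation.ReflTransGen (fun p r => K.adj p r ∧ E p r) x x' := by
    rintro x x' (rfl | ⟨g, h1, h2⟩)
    · exact Relation.ReflTransGen.refl
    · have h3 := hsh g⁻¹ ((hsymm (hpathS _ h1)).trans (hpathS _ h2))
      rwa [inv_smul_smul, inv_smul_smul] at h3
  have hne : ∃ x x', ¬ E x x' := by
    by_contra hc
    push Not at hc
    apply (hinf G D).1 H hFC
    have : H = ⊤ := by
      rw [eq_top_iff]
      intro k _
      rcases hc q (k • q) with h | ⟨g, h1, h2⟩
      · have := hfree' k h.symm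
        rw [this]
        exact H.one_mem
      · have h3 := hkey q hqS g h1
        have h4 := hkey q hqS (g * k) (by rw [mul_smul]; exact h2)
        have h5 := H.mul_mem (H.inv_mem h3) h4
        rwa [inv_mul_cancel_left] at h5
    rw [this]
    infer_instance
  have hst : ∀ (x : K.V) (S' : Subgroup G), (∀ g, g ∈ S' ↔ E x (g • x)) → FC S' := by
    intro x S' hS'
    by_cases hx : ∃ g₁ : G, g₁ • x ∈ S
    · obtain ⟨g₁, hg₁⟩ := hx
      refine con_conj g₁ (H := H) ?_ hFC
      intro g hg
      apply hkey _ hg₁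
      rw [mul_smul, inv_smul_smul, mul_smul]
      rcases (hS' g).1 hg with h | ⟨g₂, h1, h2⟩
      · rw [← h]; exact hg₁
      · have h3 : g₁ * g₂⁻¹ ∈ H := by
          apply hkey _ h1
          rw [mul_smul, inv_smul_smul]
          exact hg₁
        have h4 := hHS _ h3 _ h2
        rwa [mul_smul, inv_smul_smul] at h4
    · have hle : S' ≤ stabilizer G x := by
        intro g hg
        rcases (hS' g).1 hg with h | ⟨g₂, h1, -⟩
        · exact h.symm
        · exact absurd ⟨g₂, h1⟩ hx
      exact con_FC_of_inj (Subgroup.inclusion hle) (Subgroup.inclusion_injective hle) (K.stab x)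
  obtain ⟨K', π, hπ1, hπ2, hπ3, hπ4, hπ5, hπ6⟩ := hq G K E hE1 hE2 hE3 hne hst
  refine ⟨K', π, hπ1, hπ2, hπ3, hπ4, hπ5, ?_, ?_⟩
  · ext g
    rw [mem_stabilizer_iff, ← hπ3, hπ2]
    constructor
    · rintro (h | ⟨g', h1, h2⟩)
      · rw [hfree' g h]
        exact H.one_mem
      · have h3 := hkey q hqS g' h2
        have h4 := hkey q hqS (g' * g) (by rw [mul_smul]; exact h1)
        have h5 := H.mul_mem (H.inv_mem h3) h4
        rwa [inv_mul_cancel_left] at h5
    · intro hg
      exact hES _ (hHS g hg q hqS) _ hqS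
  · have e : {s : Set K.V | ∃ x y z, K.tri x y z ∧ π x = π y ∧ s = {x, y, z}} =
        {s : Set K.V | ∃ x y z, K.tri x y z ∧ E x y ∧ s = {x, y, z}} := by
      ext s
      constructor
      · rintro ⟨x, x', z, h1, h2, h3⟩
        exact ⟨x, x', z, h1, (hπ2 _ _).1 h2, h3⟩
      · rintro ⟨x, x', z, h1, h2, h3⟩
        exact ⟨x, x', z, h1, (hπ2 _ _).2 h2, h3⟩
    rw [e]
    exact hπ6

end Pool.Agent.Helper93.HZ
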